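import Pool.Agent.H16.FK.TargetsB

/-!
# It is enough to commute with injective ultrafilters
-/

set_option autoImplicit false

namespace Pool.Agent.H14.FKI

open Set Pool.Agent.H75.HCI Pool.Agent.H41.HI Pool.Agent.H71.HCI Pool.Agent.H16.FK

theorem ext_ev {A : Type} {V V' : Ultrafilter A}
    (h : ∀ p : A → Prop, (∀ᶠ x in (V : Filter A), p x) ↔ ∀ᶠ x in (V' : Filter A), p x) :
    V = V' :=
  Ultrafilter.coe_injective (Filter.ext fun s => h fun x => x ∈ s)

theorem prU_re {I J K : Type} (V : Ultrafilter (I → ℕ)) (U : Ultrafilter (K → ℕ)) (f : J → K) :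
    prU V (re U f) = re (prU V U) (Sum.map id f) := by
  refine ext_ev fun p => ?_
  rw [ev_prU, ev_re, ev_prU]
  refine Filter.eventually_congr (Filter.Eventually.of_forall fun x => ?_)
  rw [ev_re]
  refine Filter.eventually_congr (Filter.Eventually.of_forall fun y => ?_)
  rw [Sum.elim_comp_map, Function.comp_id]

theorem re_prU {I J K : Type} (V : Ultrafilter (I → ℕ)) (U : Ultrafilter (K → ℕ)) (f : J → K) :
    re (prU (re U f) V) Sum.swap = re (re (prU U V) Sum.swap) (Sum.map id f) := by
  refine ext_ev fun p => ?_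
  rw [ev_re, ev_prU, ev_re, ev_re, ev_re, ev_prU]
  refine Filter.eventually_congr (Filter.Eventually.of_forall fun x => ?_)
  refine Filter.eventually_congr (Filter.Eventually.of_forall fun y => ?_)
  have h : (Sum.elim (x ∘ f) y ∘ Sum.swap : I ⊕ J → ℕ) =
      (Sum.elim x y ∘ Sum.swap) ∘ Sum.map id f := by
    funext i
    rcases i with i | i <;> rfl
  rw [h]

/-- an ultrafilter on tuples is a reindexed ultrafilter on injective tuples -/
theorem exists_inj {J : Type} [Finite J] (U : Ultrafilter (J → ℕ)) :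
    ∃ (mu : ℕ) (e : Fin mu → J) (f : J → Fin mu), Ij (re U e) ∧ U = re (re U e) f := by
  obtain ⟨R, -, hR⟩ := exists_const U (fun y : J → ℕ => fun i i' : J => y i = y i') univ
    Set.finite_univ (Filter.Eventually.of_forall fun _ => mem_univ _)
  have hR' : ∀ᶠ y in (U : Filter (J → ℕ)), ∀ i i', y i = y i' ↔ R i i' := by
    filter_upwards [hR] with y hy i i'
    rw [← hy]
  obtain ⟨y0, hy0⟩ := hR'.exists
  let s : Setoid J := ⟨R, ⟨fun i => (hy0 _ _).1 rfl,
    fun {i j} h => (hy0 _ _).1 ((hy0 _ _).2 h).symm,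
    fun {i j k} h h' => (hy0 _ _).1 (((hy0 _ _).2 h).trans ((hy0 _ _).2 h'))⟩⟩
  obtain ⟨mu, ⟨eq⟩⟩ := Finite.exists_equiv_fin (Quotient s)
  have h1 : ∀ i : J, R ((eq.symm (eq (Quotient.mk s i))).out) i := by
    intro i
    rw [Equiv.symm_apply_apply]
    exact Quotient.exact (s := s) (Quotient.out_eq _)
  refine ⟨mu, fun a => (eq.symm a).out, fun i => eq (Quotient.mk s i), ?_, ?_⟩
  · unfold Ij
    rw [ev_re]
    filter_upwards [hR'] with y hy a b hab
    have h2 : R (eq.symm a).out (eq.symm b).out := (hy _ _).1 hab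
    have h3 : (Quotient.mk s (eq.symm a).out) = Quotient.mk s (eq.symm b).out :=
      Quotient.sound (s := s) h2
    rw [Quotient.out_eq, Quotient.out_eq] at h3
    exact eq.symm.injective h3
  · refine ext_ev fun p => ?_
    rw [ev_re, ev_re]
    refine Filter.eventually_congr ?_
    filter_upwards [hR'] with y hy
    have h2 : (y ∘ (fun a => (eq.symm a).out)) ∘ (fun i => eq (Quotient.mk s i)) = y := by
      funext i
      exact (hy _ _).2 (h1 i)
    rw [h2]

theorem pf_NDU : T_NDU := by
  intro C I M V hM _ _ h J _ U hU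
  obtain ⟨mu, e, f, h1, h2⟩ := exists_inj U
  have h3 := h mu (re U e) (np_re hU e) h1
  rw [h2, prU_re, re_prU]
  exact typ_re_congr hM h3 _

end Pool.Agent.H14.FKI
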