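import Pool.Agent.H16.FK.TargetsB

/-!
# If the limit is nonsplit and the marks see it then the rows are nonsplit
-/

set_option autoImplicit false

namespace Pool.Agent.H14.FKI

open Set Pool.Agent.H75.HCI Pool.Agent.H41.HI Pool.Agent.H71.HCI Pool.Agent.H16.FK

variable {C : Type} {kc ku k : ℕ} {M : List ℕ → C} {D : Dat kc ku k}

theorem ev_run_cons {it : ℕ × ℕ × ℕ} {σ : List (ℕ × ℕ × ℕ)} {st : Sta kc ku k}
    {p : Sta kc ku k → Prop} :
    (∀ᶠ s in (run D (it :: σ) st : Filter (Sta kc ku k)), p s) ↔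
      ∀ᶠ s' in (step D it st : Filter (Sta kc ku k)),
        ∀ᶠ s in (run D σ s' : Filter (Sta kc ku k)), p s := Iff.rfl

theorem ev_run_nil {st : Sta kc ku k} {p : Sta kc ku k → Prop} :
    (∀ᶠ s in (run D [] st : Filter (Sta kc ku k)), p s) ↔ p st := Iff.rfl

theorem ev_step0 {i m : ℕ} {st : Sta kc ku k} {p : Sta kc ku k → Prop} :
    (∀ᶠ s in (step D (i, 0, m) st : Filter (Sta kc ku k)), p s) ↔
      ∀ᶠ j in (D.UU : Filter ℕ), p ⟨Function.update st.j i j, fun p =>
        if p.1 = i then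
          Sum.elim (fun b => Fin.addCases (fun b' => D.c j b') (fun _ => st.pt p) b)
            (fun _ => st.pt p) p.2
        else st.pt p⟩ := by
  unfold step
  rw [if_pos rfl]
  rfl

theorem ev_step1 {i m : ℕ} {st : Sta kc ku k} {p : Sta kc ku k → Prop} :
    (∀ᶠ s in (step D (i, 1, m) st : Filter (Sta kc ku k)), p s) ↔
      ∀ᶠ y in (D.V (st.j i) : Filter (Fin k → ℕ)), p ⟨st.j, fun p =>
        if p.1 = i then
          Sum.elim (fun _ => st.pt p) (fun q => if q.1 = m then y q.2 else st.pt p) p.2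
        else st.pt p⟩ := by
  unfold step
  rw [if_neg (by simp), if_pos rfl]
  rfl

theorem ev_mixU {I : Type} {V : Ultrafilter (I → ℕ)} {b : I → Bool} {p : (I → ℕ) → Prop} :
    (∀ᶠ z in (mixU V b : Filter (I → ℕ)), p z) ↔
      ∀ᶠ x in (V : Filter (I → ℕ)), ∀ᶠ y in (V : Filter (I → ℕ)),
        p (fun i => if b i then y i else x i) := Iff.rfl

/-- the word of the places `w` of the marks and a row -/
def wd (D : Dat kc ku k) (w : List ℕ) : List (ℕ ⊕ Fin k) :=
  sel (D.z.map Sum.inl ++ (List.finRange k).map Sum.inr) w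

theorem sel_wd (w : List ℕ) (y : Fin k → ℕ) :
    sel (D.z ++ (List.finRange k).map y) w = (wd D w).map (Sum.elim id y) := by
  unfold wd
  rw [← sel_map]
  congr 1
  rw [List.map_append, List.map_map, List.map_map]
  have h1 : (Sum.elim id y : ℕ ⊕ Fin k → ℕ) ∘ Sum.inl = id := rfl
  have h2 : (Sum.elim id y : ℕ ⊕ Fin k → ℕ) ∘ Sum.inr = y := rfl
  rw [h1, h2, List.map_id]

theorem prg1 : Prg ∅ [((0, 0, 0) : ℕ × ℕ × ℕ), (0, 1, 0)] := by
  refine ⟨?_, ?_, ?_, ?_⟩
  · simp [ilt]
  · intro a ha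
    simp only [List.mem_cons, List.not_mem_nil, or_false] at ha
    rcases ha with rfl | rfl <;> simp
  · intro a _ b hb
    exact absurd hb (by simp)
  · intro a ha
    simp only [List.mem_cons, List.not_mem_nil, or_false] at ha
    rcases ha with rfl | rfl <;> simp

theorem prg2 : Prg ∅ [((0, 0, 0) : ℕ × ℕ × ℕ), (0, 1, 0), (0, 1, 1)] := by
  refine ⟨?_, ?_, ?_, ?_⟩
  · simp [ilt]
  · intro a ha
    simp only [List.mem_cons, List.not_mem_nil, or_false] at ha
    rcases ha with rfl | rfl | rfl <;> simp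
  · intro a _ b hb
    exact absurd hb (by simp)
  · intro a ha
    simp only [List.mem_cons, List.not_mem_nil, or_false] at ha
    rcases ha with rfl | rfl | rfl <;> simp

theorem row_eq (hT : T_TDV) (hM : FinL M) (w : List ℕ) :
    TD M D (row 0 0) w = typ M (limU D.UU D.V) (wd D w) := by
  have h := hT C kc ku k M D hM (row 0 0) [(0, 0, 0), (0, 1, 0)] prg1 (by
    intro p hp
    unfold row prt at hp
    obtain ⟨y, -, rfl⟩ := List.mem_map.1 hp
    simp [itp]) st0 w
  symm
  refine typ_eq ?_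
  rw [ev_limU]
  rw [ev_run_cons, ev_step0] at h
  filter_upwards [h] with j hj
  rw [ev_run_cons, ev_step1] at hj
  simp only [Function.update_self] at hj
  filter_upwards [hj] with y hy
  rw [ev_run_nil] at hy
  rw [← hy, ← sel_wd]
  congr 3
  unfold row prt
  rw [List.map_map]
  refine List.map_congr_left fun i _ => ?_
  simp

theorem srow_eq (hT : T_TDV) (hM : FinL M) (b : Fin k → Bool) (w : List ℕ) :
    ∀ᶠ j in (D.UU : Filter ℕ), typ M (mixU (D.V j) b) (wd D w) =
      TD M D (srow 0 (bh b)) w := by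
  have h := hT C kc ku k M D hM (srow 0 (bh b)) [(0, 0, 0), (0, 1, 0), (0, 1, 1)] prg2 (by
    intro p hp
    unfold srow at hp
    obtain ⟨y, -, rfl⟩ := List.mem_map.1 hp
    unfold bh
    by_cases hb : b y <;> simp [itp, hb]) st0 w
  rw [ev_run_cons, ev_step0] at h
  filter_upwards [h] with j hj
  refine typ_eq ?_
  rw [ev_mixU]
  rw [ev_run_cons, ev_step1] at hj
  simp only [Function.update_self] at hj
  filter_upwards [hj] with x hx
  rw [ev_run_cons, ev_step1] at hx
  simp only [Function.update_self] at hx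
  filter_upwards [hx] with y hy
  rw [ev_run_nil] at hy
  rw [← hy, ← sel_wd]
  congr 3
  unfold srow bh
  rw [List.map_map]
  refine List.map_congr_left fun i _ => ?_
  by_cases hb : b i <;> simp [hb]

theorem pf_NSD (hX : T_MXL) (hT : T_TDV) : T_NSD := by
  intro C kc ku k M D hM hD hP hs b hb hEq
  obtain ⟨l, hl⟩ := hs b hb
  apply hl
  obtain ⟨h1, -⟩ := hX C k M D.UU D.V hM (hD.vN.mono fun j hj => hj.2) hP b hb
  have h2 : ∀ w, typ M (limU D.UU D.V) (wd D w) = typ M (mixU (limU D.UU D.V) b) (wd D w) := by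
    intro w
    obtain ⟨j, hj1, hj2⟩ := ((srow_eq hT hM b w).and h1).exists
    rw [← hj2, hj1, ← hEq, row_eq hT hM]
  have h3 : l.map (Sum.map D.z.get id) =
      wd D (l.map (Sum.elim (fun i => i.val) fun i => D.z.length + i.val)) := by
    unfold wd sel
    rw [List.filterMap_map, ← List.filterMap_eq_map]
    refine List.filterMap_congr fun a _ => ?_
    rcases a with a | a
    · have h4 : a.val < (D.z.map (Sum.inl : ℕ → ℕ ⊕ Fin k)).length := by simp
      simp [List.getElem?_append_left h4]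
    · simp
  rw [h3]
  exact h2 _

end Pool.Agent.H14.FKI
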